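import Mathlib

set_option autoImplicit false
open Matrix Filter Topology

namespace Pool.Agent.Results.MP_2e17cf_an.Lens

variable {n : ℕ}

/-- objective `½ xᵀQx + cᵀx` -/
noncomputable def obj (Q : Matrix (Fin n) (Fin n) ℝ) (c x : Fin n → ℝ) : ℝ :=
  1 / 2 * (x ⬝ᵥ Q *ᵥ x) + c ⬝ᵥ x

/-- constraint `xᵀAx + 2bᵀx + d` -/
def con (A : Matrix (Fin n) (Fin n) ℝ) (b : Fin n → ℝ) (d : ℝ) (x : Fin n → ℝ) : ℝ :=
  x ⬝ᵥ A *ᵥ x + 2 * (b ⬝ᵥ x) + d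

/-- gradient `2Ax + 2b` of the constraint -/
def conGrad (A : Matrix (Fin n) (Fin n) ℝ) (b x : Fin n → ℝ) : Fin n → ℝ :=
  (2 : ℝ) • (A *ᵥ x) + (2 : ℝ) • b

/-- local nonglobal minimizer of `f` on `F` -/
def LocNonGlob (f : (Fin n → ℝ) → ℝ) (F : Set (Fin n → ℝ)) (x : Fin n → ℝ) : Prop :=
  x ∈ F ∧ IsLocalMinOn f F x ∧ ¬ IsMinOn f F x

noncomputable def f (x : Fin 2 → ℝ) : ℝ := -x 0 ^ 2 - x 1 ^ 2 + x 1

def F : Set (Fin 2 → ℝ) :=
  {x | 45 / 64 * x 0 ^ 2 + x 1 ^ 2 - x 1 - 429 / 400 ≤ 0 ∧ 4 * x 0 ^ 2 + x 1 ^ 2 - 1 ≤ 0}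

lemma glob (z : Fin 2 → ℝ) (hz : z ∈ F) : -28 / 25 ≤ f z := by
  obtain ⟨h1, h2⟩ := hz
  unfold f
  rcases le_total (-3 / 5) (z 1) with h | h
  · have : z 1 ≤ 1 := by nlinarith [sq_nonneg (z 0)]
    nlinarith
  · nlinarith

lemma curve {z : Fin 2 → ℝ} (hz : IsLocalMinOn f F z) (γ : ℝ → Fin 2 → ℝ) (hγ : ContinuousAt γ 0)
    (h0 : γ 0 = z) (h : ∀ᶠ t in 𝓝[>] (0 : ℝ), γ t ∈ F ∧ f (γ t) < f z) : False := by
  have h1 : Tendsto γ (𝓝[>] 0) (𝓝[F] z) :=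
    tendsto_nhdsWithin_iff.2 ⟨h0 ▸ hγ.tendsto.mono_left nhdsWithin_le_nhds, h.mono fun _ h => h.1⟩
  obtain ⟨t, ht1, ht2⟩ := ((h1.eventually hz).and h).exists
  exact absurd ht1 (not_le.2 ht2.2)

lemma seg {z : Fin 2 → ℝ} (hF : z ∈ F) (hz : IsLocalMinOn f F z) (h1 : -3 / 5 ≤ z 1)
    (h2 : z 1 < 0) (s : ℝ) (hs : s ^ 2 = 4 / 25) 
    (hs' : 0 ≤ 2 * z 0 * (s - z 0) + (1 - 2 * z 1) * (z 1 + 3 / 5)) :
    f z = -28 / 25 := by
  by_contra hc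
  have hne : 0 < (s - z 0) ^ 2 + (-3 / 5 - z 1) ^ 2 := by
    by_contra h
    have a : s - z 0 = 0 := by nlinarith [sq_nonneg (s - z 0), sq_nonneg (-3 / 5 - z 1)]
    have b : -3 / 5 - z 1 = 0 := by nlinarith [sq_nonneg (s - z 0), sq_nonneg (-3 / 5 - z 1)]
    apply hc
    unfold f
    rw [show z 0 = s by linarith, show z 1 = -3 / 5 by linarith, hs]; norm_num
  refine curve hz (fun t => ![z 0 + t * (s - z 0), z 1 + t * (-3 / 5 - z 1)]) (by fun_prop)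
    (by ext i; fin_cases i <;> simp) ?_
  filter_upwards [Ioo_mem_nhdsGT one_pos] with t ⟨t0, t1⟩
  obtain ⟨g1, g2⟩ := hF
  have t2 : 0 < 1 - t := by linarith
  have t3 := mul_pos t0 t2
  simp only [F, f, Set.mem_setOf_eq, cons_val_zero, cons_val_one]
  refine ⟨⟨?_, ?_⟩, ?_⟩
  · nlinarith [mul_nonneg t3.le (sq_nonneg (s - z 0)), mul_nonneg t3.le (sq_nonneg (-3 / 5 - z 1)),
      mul_nonpos_of_nonneg_of_nonpos t2.le g1]
  · nlinarith [mul_nonneg t3.le (sq_nonneg (s - z 0)), mul_nonneg t3.le (sq_nonneg (-3 / 5 - z 1)),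
      mul_nonpos_of_nonneg_of_nonpos t2.le g2]
  · nlinarith [mul_pos (mul_pos t0 t0) hne, mul_nonneg t0.le hs']

lemma cap {z : Fin 2 → ℝ} (hF : z ∈ F) (hz : IsLocalMinOn f F z) (h1 : z 1 < -3 / 5)
    (e : ℝ) (he : e ^ 2 = 1) (he' : e * |z 0| = z 0) : False := by
  obtain ⟨g1, g2⟩ := hF
  have hs : 4 * z 0 ^ 2 + z 1 ^ 2 - 1 < 0 := by
    have : -1 ≤ z 1 := by nlinarith [sq_nonneg (z 0)]
    nlinarith
  set γ : ℝ → Fin 2 → ℝ := fun t =>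
    ![e * √(z 0 ^ 2 + 64 / 45 * (t * (1 - 2 * z 1 - t))), z 1 + t] with hγ
  have hc : ContinuousAt γ 0 := by fun_prop
  have h0 : γ 0 = z := by ext i; fin_cases i <;> simp [hγ, Real.sqrt_sq_eq_abs, he']
  refine curve hz γ hc h0 ?_
  have h3 : ∀ᶠ t in 𝓝 (0 : ℝ), 4 * γ t 0 ^ 2 + γ t 1 ^ 2 - 1 < 0 :=
    ContinuousAt.eventually_lt (by fun_prop) continuousAt_const (by rw [h0]; exact hs)
  filter_upwards [Ioo_mem_nhdsGT one_pos, mem_nhdsWithin_of_mem_nhds h3] with t ⟨t0, t1⟩ t2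
  have t3 : 0 < t * (1 - 2 * z 1 - t) := mul_pos t0 (by linarith)
  have e0 : γ t 0 ^ 2 = z 0 ^ 2 + 64 / 45 * (t * (1 - 2 * z 1 - t)) := by
    simp only [hγ, cons_val_zero, mul_pow, he, one_mul]
    exact Real.sq_sqrt (by positivity)
  have e1 : γ t 1 = z 1 + t := rfl
  refine ⟨⟨?_, le_of_lt t2⟩, ?_⟩
  · rw [e0, e1]; nlinarith
  · unfold f; rw [e0, e1]; nlinarith

lemma low (z : Fin 2 → ℝ) (h : LocNonGlob f F z) : -1 / 4 ≤ f z := by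
  obtain ⟨hF, hz, hng⟩ := h
  have g2 := hF.2
  rcases le_or_gt 0 (z 1) with h0 | h0
  · have : z 1 ≤ 1 := by nlinarith [sq_nonneg (z 0)]
    unfold f; nlinarith
  exfalso
  rcases le_or_gt (-3 / 5) (z 1) with h1 | h1
  · have hm := mul_nonneg (show 0 ≤ -z 1 by linarith) (show 0 ≤ z 1 + 3 / 5 by linarith)
    have : f z = -28 / 25 := by
      rcases le_total 0 (z 0) with h | h
      · refine seg hF hz h1 h0 (2 / 5) (by norm_num) ?_
        rcases le_total (z 0) (2 / 5) with h' | h' <;> nlinarith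
      · refine seg hF hz h1 h0 (-2 / 5) (by norm_num) ?_
        rcases le_total (z 0) (-2 / 5) with h' | h' <;> nlinarith
    exact hng fun y hy => by simpa [this] using glob y hy
  · rcases le_total 0 (z 0) with h | h
    · exact cap hF hz h1 1 (by norm_num) (by rw [abs_of_nonneg h, one_mul])
    · exact cap hF hz h1 (-1) (by norm_num) (by rw [abs_of_nonpos h]; ring)

theorem result : ∃ (n : ℕ) (Q A₁ A₂ : Matrix (Fin n) (Fin n) ℝ) (c b₁ b₂ : Fin n → ℝ) (d₁ d₂ : ℝ),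
    Q.IsSymm ∧ A₁.PosDef ∧ A₂.PosDef ∧
    let F := {x | con A₁ b₁ d₁ x ≤ 0 ∧ con A₂ b₂ d₂ x ≤ 0}
    (∃ z, LocNonGlob (obj Q c) F z) ∧
    ∃ x ∈ F, (∃ μ₁ μ₂ : ℝ, 0 ≤ μ₁ ∧ 0 ≤ μ₂ ∧
        Q *ᵥ x + c + μ₁ • conGrad A₁ b₁ x + μ₂ • conGrad A₂ b₂ x = 0 ∧
        μ₁ * con A₁ b₁ d₁ x = 0 ∧ μ₂ * con A₂ b₂ d₂ x = 0) ∧
      ¬ IsMinOn (obj Q c) F x ∧
      ∃ w, obj Q c x < w ∧ ∀ z, LocNonGlob (obj Q c) F z → w ≤ obj Q c z := by
  refine ⟨2, diagonal ![-2, -2], diagonal ![45 / 64, 1], diagonal ![4, 1], ![0, 1], ![0, -1 / 2],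
    0, -429 / 400, -1, isSymm_diagonal _, ?_, ?_, ?_⟩
  · exact PosDef.diagonal fun i => by fin_cases i <;> simp
  · exact PosDef.diagonal fun i => by fin_cases i <;> simp
  have e1 : obj (diagonal ![-2, -2]) ![0, 1] = f := by
    funext x; simp [obj, f, dotProduct, mulVec_diagonal, Fin.sum_univ_two]; ring
  have e2 : {x | con (diagonal ![45 / 64, 1]) ![0, -1 / 2] (-429 / 400) x ≤ 0 ∧
      con (diagonal ![4, 1]) 0 (-1) x ≤ 0} = F := by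
    ext x
    simp only [con, F, dotProduct, mulVec_diagonal, Fin.sum_univ_two, Set.mem_setOf_eq,
      cons_val_zero, cons_val_one, Pi.zero_apply]
    constructor <;> rintro ⟨a, b⟩ <;> constructor <;> linarith
  intro F'
  rw [show F' = F from e2, e1]
  have hP : (![2 / 5, -3 / 5] : Fin 2 → ℝ) ∈ F := by simp [F]; norm_num
  refine ⟨⟨![0, 1], by simp [F]; norm_num, ?_, fun h => ?_⟩, ![0, -13 / 20], by simp [F]; norm_num,
    ⟨1, 0, zero_le_one, le_rfl, ?_, ?_, by simp⟩, fun h => ?_, -1 / 4, by simp [f]; norm_num, low⟩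
  · have h3 : ∀ᶠ y : Fin 2 → ℝ in 𝓝 ![0, 1], 1 / 3 < y 1 :=
      ContinuousAt.eventually_lt continuousAt_const (continuous_apply 1).continuousAt
        (by simp; norm_num)
    filter_upwards [self_mem_nhdsWithin, mem_nhdsWithin_of_mem_nhds h3] with y hy h4
    have g2 := hy.2
    have : y 1 ≤ 1 := by nlinarith [sq_nonneg (y 0)]
    simp only [f, cons_val_zero, cons_val_one]
    nlinarith
  · have := h hP
    simp [f] at this; norm_num at this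
  · ext i; fin_cases i <;> simp [conGrad, mulVec_diagonal] <;> norm_num
  · simp [con, dotProduct, mulVec_diagonal, Fin.sum_univ_two]; norm_num
  · have := h hP
    simp [f] at this; norm_num at this

end Pool.Agent.Results.MP_2e17cf_an.Lens
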